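import Pool.Agent.H95.DR.Targets

/-!
# Change of the basis and of the time
-/

set_option autoImplicit false
set_option linter.unusedSectionVars false

open MeasureTheory Set Filter NumberField
open scoped Real nonZeroDivisors Matrix MatrixGroups

namespace Pool.Agent.H11.DF

open Pool.Agent.H31.CN Pool.Agent.H89.FM Pool.Agent.H61.FM Pool.Agent.H89.FC Pool.Agent.H95.FC
open Pool.Agent.H89.DF Pool.Agent.H95.DR

section

variable {K : Type} [Field K] [NumberField K]

/-- the embedding of the integers -/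
lemma emb (σ : K →+* ℝ) : ∃ s : 𝓞 K →+* ℝ, ∀ x : 𝓞 K, σ (x : K) = s x :=
  ⟨σ.comp (algebraMap (𝓞 K) K), fun _ => rfl⟩

lemma ph_add (σ σ' : K →+* ℝ) (τ : ℝ) (a b : 𝓞 K) (m n : ℤ) :
    ph σ σ' τ ((m : 𝓞 K) * a + (n : 𝓞 K) * b) =
      ((m : ℝ) : ℂ) * ph σ σ' τ a + ((n : ℝ) : ℂ) * ph σ σ' τ b := by
  obtain ⟨s, hs⟩ := emb σ
  obtain ⟨s', hs'⟩ := emb σ'
  unfold ph
  rw [hs, hs, hs, hs', hs', hs', map_add, map_mul, map_mul, map_intCast, map_intCast, map_add,
    map_mul, map_mul, map_intCast, map_intCast]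
  push_cast
  ring

lemma ph_ne {σ σ' : K →+* ℝ} {a b : 𝓞 K}
    (h : 0 < σ (a : K) * σ' (b : K) - σ (b : K) * σ' (a : K)) (τ : ℝ) : ph σ σ' τ a ≠ 0 := by
  intro h0
  have hre : (ph σ σ' τ a).re = Real.exp (τ / 2) * σ (a : K) := by
    unfold ph
    rw [Complex.add_re, Complex.ofReal_re, Complex.re_ofReal_mul, Complex.I_re, mul_zero, add_zero]
  have him : (ph σ σ' τ a).im = Real.exp (-(τ / 2)) * σ' (a : K) := by
    unfold ph
    rw [Complex.add_im, Complex.ofReal_im, Complex.im_ofReal_mul, Complex.I_im, mul_one, zero_add]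
  rw [h0, Complex.zero_re] at hre
  rw [h0, Complex.zero_im] at him
  have h3 : (σ (a : K) : ℝ) = 0 :=
    (mul_eq_zero.1 hre.symm).resolve_left (Real.exp_pos _).ne'
  have h4 : (σ' (a : K) : ℝ) = 0 :=
    (mul_eq_zero.1 him.symm).resolve_left (Real.exp_pos _).ne'
  rw [h3, h4] at h
  simp at h

lemma lv_ori (σ σ' : K →+* ℝ) (a b : 𝓞 K) (V W : ℤ × ℤ) :
    σ (lv K a b V : K) * σ' (lv K a b W : K) - σ (lv K a b W : K) * σ' (lv K a b V : K) =
      (det V W : ℝ) * (σ (a : K) * σ' (b : K) - σ (b : K) * σ' (a : K)) := by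
  obtain ⟨s, hs⟩ := emb σ
  obtain ⟨s', hs'⟩ := emb σ'
  simp only [hs, hs', lv, det, map_add, map_mul, map_intCast]
  push_cast
  ring

end

theorem pf_PBT (hFLF : Pool.Agent.H95.FC.T_FLF) : T_PBT := by
  intro K _ _ σ σ'
  obtain ⟨s, hs⟩ := emb σ
  obtain ⟨s', hs'⟩ := emb σ'
  refine ⟨fun I α β Q hI hO => ⟨?_, hO.nrm, hO.ori⟩, fun N a b Q f V W hP hf hd => ?_,
    fun N a b Q g hP => ?_, fun e τ a b he hee => ?_⟩
  · have h1 : Ideal.absNorm I ≠ 0 := fun h => hI (Ideal.absNorm_eq_zero_iff.1 h)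
    exact_mod_cast Nat.pos_of_ne_zero h1
  · have hlv : ∀ v, lv K (lv K a b V) ((f : 𝓞 K) * lv K a b W) v = lv K a b (io f V W v) := by
      intro v
      have h1 : io f V W v = (v.1 * V.1 + f * v.2 * W.1, v.1 * V.2 + f * v.2 * W.2) := rfl
      rw [h1]
      simp only [lv]
      push_cast
      ring
    refine ⟨⟨hP.pos, fun v => ?_, ?_⟩, hlv⟩
    · rw [hlv v, hP.nrm, (hFLF f Q V W hf hd).1 v]
    · have h1 := lv_ori σ σ' a b V W
      rw [hd, Int.cast_one, one_mul] at h1
      have h2 : σ (((f : 𝓞 K) * lv K a b W : 𝓞 K) : K) = f * σ (lv K a b W : K) := by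
        rw [hs, hs, map_mul, map_natCast]
      have h3 : σ' (((f : 𝓞 K) * lv K a b W : 𝓞 K) : K) = f * σ' (lv K a b W : K) := by
        rw [hs', hs', map_mul, map_natCast]
      rw [h2, h3]
      have h4 : σ (lv K a b V : K) * (f * σ' (lv K a b W : K)) -
          f * σ (lv K a b W : K) * σ' (lv K a b V : K) =
          f * (σ (a : K) * σ' (b : K) - σ (b : K) * σ' (a : K)) := by
        rw [← h1]
        ring
      rw [h4]
      have hf0 : (0 : ℝ) < f := by exact_mod_cast hf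
      exact mul_pos hf0 hP.ori
  · have hdet : g 0 0 * g 1 1 - g 0 1 * g 1 0 = 1 := by
      have := g.det_coe
      rw [Matrix.det_fin_two] at this
      exact this
    refine ⟨⟨hP.pos, fun v => ?_, ?_⟩, fun τ => ?_⟩
    · have hlv : lv K (lv K a b (g 0 0, g 1 0)) (lv K a b (g 0 1, g 1 1)) v =
          lv K a b (gv g v) := by
        simp only [lv, gv]
        push_cast
        ring
      rw [hlv, hP.nrm]
      congr 2
      simp only [val, act, gv]
      ring
    · rw [lv_ori]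
      have h1 : det (g 0 0, g 1 0) (g 0 1, g 1 1) = 1 := by
        simp only [det]
        linarith
      rw [h1, Int.cast_one, one_mul]
      exact hP.ori
    · have hpa := ph_ne hP.ori τ
      obtain ⟨z, hz⟩ : ∃ z : ℂ, z = zp σ σ' τ a b := ⟨_, rfl⟩
      have hzb : ph σ σ' τ b = z * ph σ σ' τ a := by
        rw [hz, zp, div_mul_cancel₀ _ hpa]
      have hz' : zp σ σ' τ (lv K a b (g 0 0, g 1 0)) (lv K a b (g 0 1, g 1 1)) =
          ((((g 0 1 : ℤ) : ℝ) : ℂ) + (((g 1 1 : ℤ) : ℝ) : ℂ) * z) /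
            ((((g 0 0 : ℤ) : ℝ) : ℂ) + (((g 1 0 : ℤ) : ℝ) : ℂ) * z) := by
        unfold zp lv
        rw [ph_add, ph_add, hzb]
        have h1 : ∀ m n : ℂ, m * ph σ σ' τ a + n * (z * ph σ σ' τ a) =
            (m + n * z) * ph σ σ' τ a := fun m n => by ring
        rw [h1, h1, mul_div_mul_right _ _ hpa]
      have hgd : Pool.Agent.H89.DF.gd g z.re z.im =
          Complex.normSq ((((g 0 0 : ℤ) : ℝ) : ℂ) + (((g 1 0 : ℤ) : ℝ) : ℂ) * z) := by
        rw [Complex.normSq_apply]
        simp [Pool.Agent.H89.DF.gd]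
        ring
      rw [hz', ← hz]
      constructor
      · rw [Complex.div_re, ← hgd, gx]
        simp
        ring
      · rw [Complex.div_im, ← hgd, gy]
        have hd : ((g 0 0 : ℤ) : ℝ) * ((g 1 1 : ℤ) : ℝ) -
            ((g 0 1 : ℤ) : ℝ) * ((g 1 0 : ℤ) : ℝ) = 1 := by
          exact_mod_cast hdet
        rw [← sub_div]
        congr 1
        simp
        linear_combination z.im * hd
  · have hse : 0 < s e := by rw [← hs]; exact he
    have hss : s e * s' e = 1 := by rw [← hs, ← hs']; exact hee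
    have hse' : s' e = (s e)⁻¹ := by
      field_simp
      linarith
    have hlg : lg σ σ' e = 2 * Real.log (s e) := by
      unfold lg
      rw [hs, hs', hse', div_inv_eq_mul, abs_of_pos (by positivity), ← sq, Real.log_pow]
      norm_num
    have h1 : Real.exp ((τ + lg σ σ' e) / 2) = Real.exp (τ / 2) * s e := by
      have h2 : (τ + lg σ σ' e) / 2 = τ / 2 + Real.log (s e) := by rw [hlg]; ring
      rw [h2, Real.exp_add, Real.exp_log hse]
    have h3 : Real.exp (-((τ + lg σ σ' e) / 2)) = Real.exp (-(τ / 2)) * s' e := by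
      have h2 : -((τ + lg σ σ' e) / 2) = -(τ / 2) + -Real.log (s e) := by rw [hlg]; ring
      rw [h2, Real.exp_add, Real.exp_neg (Real.log (s e)), Real.exp_log hse, hse']
    have key : ∀ x : 𝓞 K, ph σ σ' τ (e * x) = ph σ σ' (τ + lg σ σ' e) x := by
      intro x
      unfold ph
      rw [h1, h3, hs, hs, hs', hs', map_mul, map_mul]
      push_cast
      ring
    exact ⟨key a, by unfold zp; rw [key a, key b]⟩

end Pool.Agent.H11.DF
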