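import Pool.Agent.H89.DF.TargetsK

/-!
# Reduction of points
-/

set_option autoImplicit false

open MeasureTheory Set Filter
open scoped Real Matrix MatrixGroups

namespace Pool.Agent.H11.DF

open Pool.Agent.H31.CN Pool.Agent.H89.FM Pool.Agent.H89.FC Pool.Agent.H89.DF

theorem pf_REDr : T_REDr := by
  intro x y hy
  obtain ⟨z, hz⟩ : ∃ z : UpperHalfPlane, (z : ℂ) = ⟨x, y⟩ := ⟨⟨⟨x, y⟩, hy⟩, rfl⟩
  obtain ⟨h, h1, h2⟩ := ModularGroup.exists_smul_mem_fd z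
  obtain ⟨w, hw⟩ : ∃ w : UpperHalfPlane, w = h • z := ⟨_, rfl⟩
  rw [← hw] at h1 h2
  have hdet : h 0 0 * h 1 1 - h 0 1 * h 1 0 = 1 := by
    have := h.det_coe
    rw [Matrix.det_fin_two] at this
    exact this
  let g : SL(2, ℤ) := ⟨!![h 1 1, h 0 1; h 1 0, h 0 0], by
    rw [Matrix.det_fin_two_of]
    linarith⟩
  have hw2 : (w : ℂ) = (((h 0 0 : ℤ) : ℂ) * z + ((h 0 1 : ℤ) : ℂ)) /
      (((h 1 0 : ℤ) : ℂ) * z + ((h 1 1 : ℤ) : ℂ)) := by
    rw [hw, UpperHalfPlane.coe_specialLinearGroup_apply]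
    simp
  have hgd : Pool.Agent.H89.DF.gd g x y = Complex.normSq (((h 1 0 : ℤ) : ℂ) * z + ((h 1 1 : ℤ) : ℂ)) := by
    rw [hz, Complex.normSq_apply]
    simp [Pool.Agent.H89.DF.gd, g]
    ring
  have hgx : gx g x y = (w : ℂ).re := by
    rw [hw2, Complex.div_re, ← hgd, gx, hz]
    simp [g]
    ring
  have hgy : gy g x y = (w : ℂ).im := by
    rw [hw2, Complex.div_im, ← hgd, gy, hz]
    have hd : ((h 0 0 : ℤ) : ℝ) * ((h 1 1 : ℤ) : ℝ) - ((h 0 1 : ℤ) : ℝ) * ((h 1 0 : ℤ) : ℝ) = 1 := by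
      exact_mod_cast hdet
    rw [← sub_div]
    congr 1
    simp
    linear_combination (-y) * hd
  refine ⟨g, ?_, ?_⟩
  · rw [hgx]
    exact h2
  · rw [hgy]
    have h3 : |(w : ℂ).re| ≤ 1 / 2 := h2
    have h4 : 0 < (w : ℂ).im := w.im_pos
    rw [Complex.normSq_apply] at h1
    rw [abs_le] at h3
    nlinarith

end Pool.Agent.H11.DF
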